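import Pool.Agent.W2helper43.BD.Stm

/-!
Project BD (owner helper43), piece CMPF.
-/

namespace Pool.Agent.W2helper63.BD

open Pool.Agent.W2helper43.BD

section basic

variable {Λ G : Type} [CommRing Λ] [IsLocalRing Λ] [Group G]

theorem red_add (x y : MonoidAlgebra Λ G) : red (x + y) = red x + red y := by
  ext g
  simp [red]

theorem red_zero : red (0 : MonoidAlgebra Λ G) = 0 := by
  ext g
  simp [red]

theorem red_single (g : G) (a : Λ) :
    red (MonoidAlgebra.single g a) = MonoidAlgebra.single g (IsLocalRing.residue Λ a) := by
  simp [red]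

variable {k : Type} [CommRing k]

theorem cut_add (H : Subgroup G) (x y : MonoidAlgebra k G) :
    cut H (x + y) = cut H x + cut H y := by
  classical
  simp only [cut, MonoidAlgebra.coeff_add, Finsupp.filter_add, MonoidAlgebra.ofCoeff_add]

theorem cut_zero (H : Subgroup G) : cut H (0 : MonoidAlgebra k G) = 0 := by
  classical
  ext g
  simp [cut, Finsupp.filter_apply]

theorem cut_single_pos (H : Subgroup G) {g : G} (hg : g ∈ Subgroup.centralizer (H : Set G))
    (a : k) : cut H (MonoidAlgebra.single g a) = MonoidAlgebra.single g a := by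
  classical
  simp only [cut, MonoidAlgebra.coeff_single]
  rw [Finsupp.filter_single_of_pos _ hg]
  rfl

theorem cut_single_neg (H : Subgroup G) {g : G} (hg : g ∉ Subgroup.centralizer (H : Set G))
    (a : k) : cut H (MonoidAlgebra.single g a) = 0 := by
  classical
  simp only [cut, MonoidAlgebra.coeff_single]
  rw [Finsupp.filter_single_of_neg _ hg]
  rfl

theorem br_add (H : Subgroup G) (x y : MonoidAlgebra Λ G) : br H (x + y) = br H x + br H y := by
  simp only [br, red_add, cut_add]

theorem br_zero (H : Subgroup G) : br H (0 : MonoidAlgebra Λ G) = 0 := by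
  simp only [br, red_zero, cut_zero]

theorem br_single_pos (H : Subgroup G) {g : G} (hg : g ∈ Subgroup.centralizer (H : Set G))
    (a : Λ) : br H (MonoidAlgebra.single g a) =
      MonoidAlgebra.single g (IsLocalRing.residue Λ a) := by
  simp only [br, red_single, cut_single_pos H hg]

theorem br_single_neg (H : Subgroup G) {g : G} (hg : g ∉ Subgroup.centralizer (H : Set G))
    (a : Λ) : br H (MonoidAlgebra.single g a) = 0 := by
  simp only [br, red_single, cut_single_neg H hg]

theorem incl_single (N : Subgroup G) (g : N) (a : k) :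
    incl N (MonoidAlgebra.single g a) = MonoidAlgebra.single (g : G) a := by
  simp [incl, MonoidAlgebra.mapDomainRingHom]

end basic

theorem mdrh_single {k M N : Type} [CommRing k] [Group M] [Group N] (f : M →* N) (g : M) (a : k) :
    MonoidAlgebra.mapDomainRingHom k f (MonoidAlgebra.single g a) =
      MonoidAlgebra.single (f g) a := by
  simp [MonoidAlgebra.mapDomainRingHom]

theorem mem_cent_map {G Γ : Type} [Group G] [Group Γ] (j : G →* Γ) (hj : Function.Injective j)
    (H : Subgroup G) (g : G) :
    j g ∈ Subgroup.centralizer ((H.map j : Subgroup Γ) : Set Γ) ↔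
      g ∈ Subgroup.centralizer (H : Set G) := by
  simp only [Subgroup.mem_centralizer_iff]
  constructor
  · intro h x hx
    apply hj
    rw [map_mul, map_mul]
    exact h (j x) (Subgroup.mem_map_of_mem j hx)
  · rintro h _ ⟨x, hx, rfl⟩
    rw [← map_mul, ← map_mul, h x hx]

theorem mem_cent_subgroupOf {Γ : Type} [Group Γ] (H : Subgroup Γ) (g : Γ)
    (hg : g ∈ Subgroup.normalizer (H : Set Γ)) :
    (⟨g, hg⟩ : Subgroup.normalizer (H : Set Γ)) ∈ Subgroup.centralizer
      ((H.subgroupOf (Subgroup.normalizer (H : Set Γ)) :
        Subgroup (Subgroup.normalizer (H : Set Γ))) : Set (Subgroup.normalizer (H : Set Γ))) ↔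
      g ∈ Subgroup.centralizer (H : Set Γ) := by
  simp only [Subgroup.mem_centralizer_iff]
  constructor
  · intro h x hx
    have hx' : x ∈ Subgroup.normalizer (H : Set Γ) := Subgroup.le_normalizer hx
    have := h ⟨x, hx'⟩ (by simpa [Subgroup.mem_subgroupOf] using hx)
    simpa using congrArg Subtype.val this
  · intro h x hx
    apply Subtype.ext
    exact h x (by simpa [Subgroup.mem_subgroupOf] using hx)

theorem p_cmpf : P_CMPF := by
  intro Λ V G Γ _ _ _ _ _ _ _ D H D1 hN
  refine ⟨?_, ?_⟩
  · intro c
    classical
    have : Fintype ((Subgroup.centralizer ((H.map D.iG : Subgroup Γ) : Set Γ)).comap D.iV) :=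
      Fintype.ofFinite _
    have key : ∀ (c : MonoidAlgebra Λ (Subgroup.normalizer (H : Set G)))
        (v : (Subgroup.centralizer ((H.map D.iG : Subgroup Γ) : Set Γ)).comap D.iV) (r : Λ),
        incl (Subgroup.normalizer ((H.map D.iG : Subgroup Γ) : Set Γ))
          (br ((H.map D.iG).subgroupOf
            (Subgroup.normalizer ((H.map D.iG : Subgroup Γ) : Set Γ)))
            (D1.ι c * MonoidAlgebra.single (D1.iV v) r)) =
        MonoidAlgebra.mapDomainRingHom (IsLocalRing.ResidueField Λ) D.iG
          (incl (Subgroup.normalizer (H : Set G))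
            (br (H.subgroupOf (Subgroup.normalizer (H : Set G))) c)) *
          incl _ (red (MonoidAlgebra.single (D1.iV v) r)) := by
      intro c v r
      induction c using MonoidAlgebra.induction_linear with
      | zero => simp only [map_zero, zero_mul, br_zero]
      | add x y hx hy =>
        rw [map_add, add_mul, br_add, map_add, hx, hy, br_add, map_add, map_add, add_mul]
      | single g a =>
        obtain ⟨g, hg⟩ := g
        have hιs : D1.ι (MonoidAlgebra.single (⟨g, hg⟩ : Subgroup.normalizer (H : Set G)) a) =
            MonoidAlgebra.single (D1.iG ⟨g, hg⟩) a := mdrh_single _ _ _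
        have hv : D.iV v ∈ Subgroup.centralizer ((H.map D.iG : Subgroup Γ) : Set Γ) := v.2
        have hval : ((D1.iG ⟨g, hg⟩ * D1.iV v :
            Subgroup.normalizer ((H.map D.iG : Subgroup Γ) : Set Γ)) : Γ) =
            D.iG g * D.iV v := by
          rw [Subgroup.coe_mul, hN.hG, hN.hV]
        have hcent : (D1.iG ⟨g, hg⟩ * D1.iV v) ∈ Subgroup.centralizer
            (((H.map D.iG).subgroupOf (Subgroup.normalizer ((H.map D.iG : Subgroup Γ) : Set Γ)) :
              Subgroup (Subgroup.normalizer ((H.map D.iG : Subgroup Γ) : Set Γ))) :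
              Set (Subgroup.normalizer ((H.map D.iG : Subgroup Γ) : Set Γ))) ↔
            g ∈ Subgroup.centralizer (H : Set G) := by
          have h1 := mem_cent_subgroupOf (H.map D.iG)
            ((D1.iG ⟨g, hg⟩ * D1.iV v :
              Subgroup.normalizer ((H.map D.iG : Subgroup Γ) : Set Γ)) : Γ)
            (D1.iG ⟨g, hg⟩ * D1.iV v).2
          rw [show (⟨((D1.iG ⟨g, hg⟩ * D1.iV v :
              Subgroup.normalizer ((H.map D.iG : Subgroup Γ) : Set Γ)) : Γ),
              (D1.iG ⟨g, hg⟩ * D1.iV v).2⟩ :
              Subgroup.normalizer ((H.map D.iG : Subgroup Γ) : Set Γ)) =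
              D1.iG ⟨g, hg⟩ * D1.iV v from rfl] at h1
          rw [h1, hval, Subgroup.mul_mem_cancel_right _ hv, mem_cent_map D.iG D.injG]
        rw [hιs, MonoidAlgebra.single_mul_single, red_single, incl_single]
        by_cases hgc : g ∈ Subgroup.centralizer (H : Set G)
        · rw [br_single_pos _ (hcent.2 hgc), incl_single, hval,
            br_single_pos _ ((mem_cent_subgroupOf H g hg).2 hgc), incl_single, mdrh_single,
            MonoidAlgebra.single_mul_single, hN.hV, map_mul]
        · rw [br_single_neg _ (fun h => hgc (hcent.1 h)),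
            br_single_neg _ (fun h => hgc ((mem_cent_subgroupOf H g hg).1 h))]
          simp only [map_zero, zero_mul]
    have key2 : ∀ (s : Finset ((Subgroup.centralizer
          ((H.map D.iG : Subgroup Γ) : Set Γ)).comap D.iV)),
        incl (Subgroup.normalizer ((H.map D.iG : Subgroup Γ) : Set Γ))
          (br ((H.map D.iG).subgroupOf
            (Subgroup.normalizer ((H.map D.iG : Subgroup Γ) : Set Γ)))
            (D1.ι c * ∑ v ∈ s, MonoidAlgebra.single (D1.iV v) (D1.c * D1.θ v⁻¹))) =
        MonoidAlgebra.mapDomainRingHom (IsLocalRing.ResidueField Λ) D.iG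
          (incl (Subgroup.normalizer (H : Set G))
            (br (H.subgroupOf (Subgroup.normalizer (H : Set G))) c)) *
          incl _ (red (∑ v ∈ s, MonoidAlgebra.single (D1.iV v) (D1.c * D1.θ v⁻¹))) := by
      intro s
      induction s using Finset.induction_on with
      | empty => simp only [Finset.sum_empty, mul_zero, br_zero, map_zero, red_zero]
      | insert v s hv ih =>
        rw [Finset.sum_insert hv, mul_add, br_add, map_add, key, ih, red_add, map_add, mul_add]
    have := key2 Finset.univ
    rw [← D1.e_eq] at this
    exact this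
  · intro b
    induction b using MonoidAlgebra.induction_linear with
    | zero => simp only [map_zero, br_zero]
    | add x y hx hy => rw [map_add, br_add, br_add, map_add, hx, hy]
    | single g a =>
      have hιs : D.ι (MonoidAlgebra.single g a) = MonoidAlgebra.single (D.iG g) a :=
        mdrh_single _ _ _
      rw [hιs]
      by_cases hgc : g ∈ Subgroup.centralizer (H : Set G)
      · rw [br_single_pos _ ((mem_cent_map D.iG D.injG H g).2 hgc), br_single_pos _ hgc,
          mdrh_single]
      · rw [br_single_neg _ (fun h => hgc ((mem_cent_map D.iG D.injG H g).1 h)),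
          br_single_neg _ hgc, map_zero]

end Pool.Agent.W2helper63.BD
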